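import Pool.Agent.Helper50_SFT.Defs

/-!
# Module F1 of the squad MP_5e5085_pr: the pieces form a toast
-/

set_option autoImplicit false

open MeasureTheory

namespace Pool.Agent.Helper93_SFT

open Pool.Agent.Helper50_SFT

theorem mem_piece {S : Scales} {σ : ℕ → Z2 → Prop} {j : ℕ} {v x : Z2} :
    x ∈ piece S σ j v ↔ x ∈ rawCell S σ j v ∨ ∃ i, i < j ∧ ∃ w, x ∈ piece S σ i w ∧
      ∃ a ∈ rawCell S σ j v, ∃ e ∈ piece S σ i w, dist a e ≤ S.K i := by
  rw [piece]
  simp only [Set.mem_union, Set.mem_ofPred_eq]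
  constructor
  · rintro (h | ⟨i, w, h⟩)
    · exact Or.inl h
    · exact Or.inr ⟨i, i.2, w, h⟩
  · rintro (h | ⟨i, hi, w, h⟩)
    · exact Or.inl h
    · exact Or.inr ⟨⟨i, hi⟩, w, h⟩

/-- every point is near the raw cell, and the diameter bound -/
theorem near (S : Scales) (σ : ℕ → Z2 → Prop) (j : ℕ) :
    (∀ v x, x ∈ piece S σ j v → ∃ a ∈ rawCell S σ j v, dist x a ≤ S.G j) ∧
    (∀ v x y, x ∈ piece S σ j v → y ∈ piece S σ j v → dist x y ≤ S.L j) := by
  induction j using Nat.strong_induction_on with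
  | _ j ih =>
    have h1 : ∀ v x, x ∈ piece S σ j v → ∃ a ∈ rawCell S σ j v, dist x a ≤ S.G j := by
      intro v x hx
      rcases mem_piece.1 hx with h | ⟨i, hi, w, hxi, a, ha, e, he, hae⟩
      · exact ⟨x, h, by rw [dist_self]; positivity⟩
      · refine ⟨a, ha, ?_⟩
        have t1 := (ih i hi).2 w x e hxi he
        have t2 := dist_triangle x e a
        rw [dist_comm e a] at t2
        have t3 : ((S.K i : ℝ)) + S.L i ≤ S.G j := by exact_mod_cast S.hG i j hi
        linarith
    refine ⟨h1, ?_⟩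
    intro v x y hx hy
    obtain ⟨a, ha, hxa⟩ := h1 v x hx
    obtain ⟨b, hb, hyb⟩ := h1 v y hy
    have ha2 : dist a v ≤ S.ρ j := ha.2.1
    have hb2 : dist b v ≤ S.ρ j := hb.2.1
    have t1 := dist_triangle x a y
    have t2 := dist_triangle a v y
    have t3 := dist_triangle v b y
    rw [dist_comm v b, dist_comm b y] at t3
    have t4 : 2 * (S.ρ j : ℝ) + 2 * S.G j ≤ S.L j := by exact_mod_cast S.hL j
    linarith

theorem absorb {S : Scales} {σ : ℕ → Z2 → Prop} {i j : ℕ} (hi : i < j) {v w a e : Z2}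
    (ha : a ∈ rawCell S σ j v) (he : e ∈ piece S σ i w) (hae : dist a e ≤ S.K i) :
    piece S σ i w ⊆ piece S σ j v := fun _ hz =>
  mem_piece.2 (Or.inr ⟨i, hi, w, hz, a, ha, e, he, hae⟩)

theorem piece_sep (S : Scales) (σ : ℕ → Z2 → Prop) (j : ℕ) (v w x y : Z2) (hvw : v ≠ w)
    (hx : x ∈ piece S σ j v) (hy : y ∈ piece S σ j w) : (S.T j : ℝ) < dist x y := by
  obtain ⟨a, ha, hxa⟩ := (near S σ j).1 v x hx
  obtain ⟨b, hb, hyb⟩ := (near S σ j).1 w y hy
  have h1 := ha.2.2 w hb.1 (Ne.symm hvw)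
  have h2 := hb.2.2 v ha.1 hvw
  have t1 := dist_triangle a b w
  have t2 := dist_triangle b a v
  rw [dist_comm b a] at t2
  have t3 := dist_triangle a x b
  have t4 := dist_triangle x y b
  rw [dist_comm a x] at t3
  have t5 : (S.T j : ℝ) + S.G j + 1 ≤ S.Tp j := by exact_mod_cast S.hTp j
  have t6 : (0 : ℝ) ≤ S.T j := by positivity
  have t7 : (0 : ℝ) ≤ S.G j := by positivity
  linarith

theorem piece_nest (S : Scales) (σ : ℕ → Z2 → Prop) (j : ℕ) : ∀ (i : ℕ) (v w x y : Z2), i < j →
    x ∈ piece S σ i w → y ∈ piece S σ j v → dist x y ≤ S.T i →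
      piece S σ i w ⊆ piece S σ j v := by
  induction j using Nat.strong_induction_on with
  | _ j ih =>
    intro i v w x y hij hx hy hxy
    have hKi : (S.T i : ℝ) + S.G i ≤ S.K i := by exact_mod_cast S.hK i
    have hGi : (0 : ℝ) ≤ S.G i := by positivity
    rcases mem_piece.1 hy with h | ⟨i', hi', w', hyi, a, ha, e, he, hae⟩
    · exact absorb hij h hx (by rw [dist_comm]; linarith)
    · have hsub : piece S σ i' w' ⊆ piece S σ j v := absorb hi' ha he hae
      rcases lt_trichotomy i i' with hlt | heq | hgt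
      · exact (ih i' hi' i w' w x y hlt hx hyi hxy).trans hsub
      · subst heq
        by_cases hw : w = w'
        · subst hw
          exact hsub
        · have := piece_sep S σ i w w' x y hw hx hyi
          linarith
      · refine absorb hij ha hx ?_
        have t1 := (near S σ i').2 w' e y he hyi
        have t2 := dist_triangle a e x
        have t3 := dist_triangle e y x
        rw [dist_comm y x] at t3
        have t4 : ((S.K i' : ℝ)) + S.L i' ≤ S.G i := by exact_mod_cast S.hG i' i hgt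
        linarith

theorem piece_self (S : Scales) (σ : ℕ → Z2 → Prop) (j : ℕ) (v x : Z2)
    (hx : x ∈ piece S σ j v) : v ∈ piece S σ j v := by
  obtain ⟨a, ha, -⟩ := (near S σ j).1 v x hx
  refine mem_piece.2 (Or.inl ⟨ha.1, by rw [dist_self]; positivity, ?_⟩)
  intro w hw hwv
  have h1 := ha.2.2 w hw hwv
  have t1 := dist_triangle a v w
  rw [dist_self]
  linarith

theorem piece_dist (S : Scales) (σ : ℕ → Z2 → Prop) (j : ℕ) (v x : Z2)
    (hx : x ∈ piece S σ j v) : dist x v ≤ S.ρ j + S.G j := by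
  obtain ⟨a, ha, hxa⟩ := (near S σ j).1 v x hx
  have ha2 : dist a v ≤ S.ρ j := ha.2.1
  have t1 := dist_triangle x a v
  linarith

theorem rawCell_local_sub (S : Scales) (σ σ' : ℕ → Z2 → Prop) (j : ℕ) (v : Z2)
    (h : ∀ u : Z2, dist u v ≤ S.R j → (σ j u ↔ σ' j u)) :
    rawCell S σ j v ⊆ rawCell S σ' j v := by
  rintro x ⟨h1, h2, h3⟩
  have hR : 2 * (S.ρ j : ℝ) + 4 * S.Tp j + S.G j ≤ S.R j := by exact_mod_cast S.hR j
  have hρ : (0 : ℝ) ≤ S.ρ j := by positivity
  have hT : (0 : ℝ) ≤ S.Tp j := by positivity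
  have hG : (0 : ℝ) ≤ S.G j := by positivity
  refine ⟨(h v (by rw [dist_self]; linarith)).1 h1, h2, ?_⟩
  intro w hw hwv
  by_cases hd : dist w v ≤ S.R j
  · exact h3 w ((h w hd).2 hw) hwv
  · push Not at hd
    have t1 := dist_triangle w x v
    rw [dist_comm w x] at t1
    linarith

theorem piece_local_sub (S : Scales) (j : ℕ) : ∀ (σ σ' : ℕ → Z2 → Prop) (v : Z2),
    (∀ i ≤ j, ∀ u : Z2, dist u v ≤ S.R j → (σ i u ↔ σ' i u)) →
      piece S σ j v ⊆ piece S σ' j v := by
  induction j using Nat.strong_induction_on with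
  | _ j ih =>
    intro σ σ' v h x hx
    have hraw : rawCell S σ j v ⊆ rawCell S σ' j v :=
      rawCell_local_sub S σ σ' j v (h j le_rfl)
    rcases mem_piece.1 hx with hx | ⟨i, hi, w, hxi, a, ha, e, he, hae⟩
    · exact mem_piece.2 (Or.inl (hraw hx))
    · have hsub : piece S σ i w ⊆ piece S σ' i w := by
        refine ih i hi σ σ' w ?_
        intro i' hi' u hu
        refine h i' (hi'.trans hi.le) u ?_
        have t1 := piece_dist S σ i w e he
        have t2 : dist a v ≤ S.ρ j := ha.2.1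
        have t3 := dist_triangle u w v
        have t4 := dist_triangle w e v
        have t5 := dist_triangle e a v
        rw [dist_comm w e] at t4
        rw [dist_comm e a] at t5
        have t6 : (S.R i : ℝ) + S.ρ j + S.G j ≤ S.R j := by exact_mod_cast S.hR' i j hi
        have t7 : ((S.K i : ℝ)) + S.L i ≤ S.G j := by exact_mod_cast S.hG i j hi
        have t8 : 2 * (S.ρ i : ℝ) + 2 * S.G i ≤ S.L i := by exact_mod_cast S.hL i
        have t9 : (0 : ℝ) ≤ S.ρ i := by positivity
        have t10 : (0 : ℝ) ≤ S.G i := by positivity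
        linarith
      exact mem_piece.2 (Or.inr ⟨i, hi, w, hsub hxi, a, hraw ha, e, hsub he, hae⟩)

theorem rawCell_shift (S : Scales) (σ : ℕ → Z2 → Prop) (t : Z2) (j : ℕ) (v x : Z2) :
    x ∈ rawCell S (fun i u => σ i (u + t)) j v ↔ x + t ∈ rawCell S σ j (v + t) := by
  unfold rawCell
  simp only [Set.mem_ofPred_eq, dist_add_right]
  constructor
  · rintro ⟨h1, h2, h3⟩
    refine ⟨h1, h2, ?_⟩
    intro w hw hwv
    have := h3 (w - t) (by rwa [sub_add_cancel]) (fun h => hwv (by rw [← h, sub_add_cancel]))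
    rwa [← dist_add_right x (w - t) t, sub_add_cancel] at this
  · rintro ⟨h1, h2, h3⟩
    refine ⟨h1, h2, ?_⟩
    intro w hw hwv
    have := h3 (w + t) hw (fun h => hwv (add_right_cancel h))
    rwa [dist_add_right] at this

theorem piece_shift (S : Scales) (σ : ℕ → Z2 → Prop) (t : Z2) (j : ℕ) : ∀ v x : Z2,
    x ∈ piece S (fun i u => σ i (u + t)) j v ↔ x + t ∈ piece S σ j (v + t) := by
  induction j using Nat.strong_induction_on with
  | _ j ih =>
    intro v x
    rw [mem_piece, mem_piece (S := S) (σ := σ)]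
    constructor
    · rintro (h | ⟨i, hi, w, hxi, a, ha, e, he, hae⟩)
      · exact Or.inl ((rawCell_shift S σ t j v x).1 h)
      · exact Or.inr ⟨i, hi, w + t, (ih i hi w x).1 hxi, a + t, (rawCell_shift S σ t j v a).1 ha,
          e + t, (ih i hi w e).1 he, by rwa [dist_add_right]⟩
    · rintro (h | ⟨i, hi, w, hxi, a, ha, e, he, hae⟩)
      · exact Or.inl ((rawCell_shift S σ t j v x).2 h)
      · refine Or.inr ⟨i, hi, w - t, (ih i hi (w - t) x).2 (by rwa [sub_add_cancel]), a - t,
          (rawCell_shift S σ t j v (a - t)).2 (by rwa [sub_add_cancel]), e - t,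
          (ih i hi (w - t) (e - t)).2 (by rwa [sub_add_cancel, sub_add_cancel]), ?_⟩
        rwa [dist_sub_right]

theorem piece_statement : PieceStatement := by
  intro S
  refine ⟨fun σ => ⟨?_, ?_, ?_, ?_⟩, ?_, ?_, ?_⟩
  · exact fun j v x hx => piece_self S σ j v x hx
  · exact fun j v x y hx hy => (near S σ j).2 v x y hx hy
  · exact fun j v w x y hvw hx hy => piece_sep S σ j v w x y hvw hx hy
  · exact fun i j v w x y hij hx hy hxy => piece_nest S σ j i v w x y hij hx hy hxy
  · exact fun σ j v x hx => piece_dist S σ j v x hx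
  · intro σ σ' j v h
    exact Set.Subset.antisymm (piece_local_sub S j σ σ' v h)
      (piece_local_sub S j σ' σ v (fun i hi u hu => (h i hi u hu).symm))
  · exact fun σ t j v x => piece_shift S σ t j v x

end Pool.Agent.Helper93_SFT
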