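import Pool.Agent.Helper50_SFT.Defs

/-!
# Module F3 of the squad MP_5e5085_pr: choice of the density and the radius at one stage
-/

set_option autoImplicit false

open MeasureTheory

namespace Pool.Agent.Helper93_SFT

open Pool.Agent.Helper50_SFT

instance instProbUnif : IsProbabilityMeasure unif := ⟨by
  unfold unif
  rw [Measure.restrict_apply_univ, Real.volume_Icc]
  simp⟩

theorem unif_Iio {q : ℝ} (h1 : q ≤ 1) : unif (Set.Iio q) = ENNReal.ofReal q := by
  unfold unif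
  rw [Measure.restrict_apply measurableSet_Iio]
  have : Set.Iio q ∩ Set.Icc (0 : ℝ) 1 = Set.Ico 0 q := by
    ext y
    simp only [Set.mem_inter_iff, Set.mem_Iio, Set.mem_Icc, Set.mem_Ico]
    constructor
    · rintro ⟨a, b, c⟩
      exact ⟨b, a⟩
    · rintro ⟨a, b⟩
      exact ⟨b, a, by linarith⟩
  rw [this, Real.volume_Ico, sub_zero]

theorem unif_Ici {q : ℝ} (h0 : 0 ≤ q) : unif (Set.Ici q) = ENNReal.ofReal (1 - q) := by
  unfold unif
  rw [Measure.restrict_apply measurableSet_Ici]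
  have : Set.Ici q ∩ Set.Icc (0 : ℝ) 1 = Set.Icc q 1 := by
    ext y
    simp only [Set.mem_inter_iff, Set.mem_Ici, Set.mem_Icc]
    constructor
    · rintro ⟨a, b, c⟩
      exact ⟨a, c⟩
    · rintro ⟨a, b⟩
      exact ⟨a, by linarith, b⟩
  rw [this, Real.volume_Icc]

/-- the uniform product measure -/
noncomputable abbrev PP : Measure (Z2 → ℝ) := Measure.infinitePi fun _ : Z2 => unif

theorem prob_none {q : ℝ} (h0 : 0 ≤ q) (s : Finset Z2) :
    PP {y | ∀ v ∈ s, ¬ y v < q} = ENNReal.ofReal (1 - q) ^ s.card := by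
  have h : {y : Z2 → ℝ | ∀ v ∈ s, ¬ y v < q} = Set.pi (s : Set Z2) (fun _ => Set.Ici q) := by
    ext y
    simp only [Set.mem_ofPred_eq, not_lt, Set.mem_pi, Finset.mem_coe, Set.mem_Ici]
  rw [h, Measure.infinitePi_pi (μ := fun _ : Z2 => unif) (fun _ _ => measurableSet_Ici)]
  simp only [unif_Ici h0, Finset.prod_const]

theorem prob_two {q : ℝ} (h1 : q ≤ 1) {v w : Z2} (hvw : w ≠ v) :
    PP {y | y v < q ∧ y w < q} = ENNReal.ofReal q ^ 2 := by
  classical
  have h : {y : Z2 → ℝ | y v < q ∧ y w < q} =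
      Set.pi (({v, w} : Finset Z2) : Set Z2) (fun _ => Set.Iio q) := by
    ext y
    simp
  rw [h, Measure.infinitePi_pi (μ := fun _ : Z2 => unif) (fun _ _ => measurableSet_Iio)]
  simp only [unif_Iio h1, Finset.prod_const]
  rw [Finset.card_pair (Ne.symm hvw)]

/-- integer distance to the centre -/
def nn (x v : Z2) : ℕ := max (v 0 - x 0).natAbs (v 1 - x 1).natAbs

theorem dist_eq_nn (x v : Z2) : dist v x = (nn x v : ℝ) := by
  have hz : ∀ a b : ℤ, dist a b = ((a - b).natAbs : ℝ) := by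
    intro a b
    rw [Int.dist_eq, Nat.cast_natAbs]
    push_cast
    rfl
  unfold nn
  apply le_antisymm
  · rw [dist_pi_le_iff (by positivity)]
    intro c
    rw [hz]
    have : c = 0 ∨ c = 1 := by fin_cases c <;> simp
    rcases this with rfl | rfl
    · exact_mod_cast le_max_left _ _
    · exact_mod_cast le_max_right _ _
  · push_cast
    rw [← hz, ← hz]
    exact max_le (dist_le_pi_dist v x 0) (dist_le_pi_dist v x 1)

/-- the ball of radius `R` around `x` -/
noncomputable def bal (x : Z2) (R : ℕ) : Finset Z2 :=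
  Fintype.piFinset fun c => Finset.Icc (x c - R) (x c + R)

theorem mem_bal {x v : Z2} {R : ℕ} : v ∈ bal x R ↔ nn x v ≤ R := by
  unfold bal nn
  rw [Fintype.mem_piFinset, Fin.forall_fin_two]
  simp only [Finset.mem_Icc]
  omega

theorem card_bal (x : Z2) (R : ℕ) : (bal x R).card = (2 * R + 1) ^ 2 := by
  unfold bal
  rw [Fintype.card_piFinset]
  simp only [Int.card_Icc, Fin.prod_univ_two]
  have : ∀ a : ℤ, (a + R + 1 - (a - R)).toNat = 2 * R + 1 := by intro a; omega
  rw [this, this, sq]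

/-- the second point of a close pair, in terms of parameters -/
def sec (x : Z2) (p : Z2 × (Fin 2 × Bool × ℕ × ℤ)) : Z2 := fun c' =>
  if c' = p.2.1 then x c' + (if p.2.2.1 then ((nn x p.1 + p.2.2.2.1 : ℕ) : ℤ)
    else -((nn x p.1 + p.2.2.2.1 : ℕ) : ℤ)) else x c' + p.2.2.2.2

/-- the parameters of close pairs -/
noncomputable def prs (x : Z2) (R m : ℕ) : Finset (Z2 × (Fin 2 × Bool × ℕ × ℤ)) :=
  bal x R ×ˢ (Finset.univ ×ˢ (Finset.univ ×ˢ
    (Finset.range m ×ˢ Finset.Icc (-((R + m : ℕ) : ℤ)) ((R + m : ℕ) : ℤ))))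

theorem card_prs (x : Z2) (R m : ℕ) :
    (prs x R m).card = (2 * R + 1) ^ 2 * (4 * m * (2 * (R + m) + 1)) := by
  unfold prs
  simp only [Finset.card_product, card_bal, Finset.card_univ, Fintype.card_fin, Fintype.card_bool,
    Finset.card_range, Int.card_Icc]
  have : (((R + m : ℕ) : ℤ) + 1 - -((R + m : ℕ) : ℤ)).toNat = 2 * (R + m) + 1 := by omega
  rw [this]
  ring

theorem exists_sec {x v w : Z2} {R m : ℕ} (hv : nn x v ≤ R) (h1 : nn x v ≤ nn x w)
    (h2 : nn x w < nn x v + m) : ∃ p ∈ prs x R m, p.1 = v ∧ sec x p = w := by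
  -- the coordinate where the maximum is attained
  have key : ∀ c c' : Fin 2, c ≠ c' → (w c - x c).natAbs = nn x w →
      (w c' - x c').natAbs ≤ nn x w → ∃ p ∈ prs x R m, p.1 = v ∧ sec x p = w := by
    intro c c' hcc hc hc'
    refine ⟨(v, c, decide (0 ≤ w c - x c), nn x w - nn x v, w c' - x c'), ?_, rfl, ?_⟩
    · unfold prs
      simp only [Finset.mem_product, mem_bal, Finset.mem_univ, true_and, Finset.mem_range,
        Finset.mem_Icc]
      refine ⟨hv, by omega, by omega, by omega⟩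
    · funext d
      have hd : d = c ∨ d = c' := by
        revert hcc
        fin_cases c <;> fin_cases c' <;> fin_cases d <;> simp
      unfold sec
      rcases hd with rfl | rfl
      · simp only [if_true]
        by_cases hs : 0 ≤ w d - x d
        · simp only [hs, decide_true, if_true]
          omega
        · simp only [hs, decide_false, Bool.false_eq_true, if_false]
          omega
      · simp only [if_neg (Ne.symm hcc)]
        omega
  rcases le_total (w 0 - x 0).natAbs (w 1 - x 1).natAbs with h | h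
  · exact key 1 0 (by decide) (by unfold nn; omega) (by unfold nn; omega)
  · exact key 0 1 (by decide) (by unfold nn; omega) (by unfold nn; omega)

/-- the bad event is contained in a finite union -/
theorem bad_subset (x : Z2) (j T₀ R : ℕ) (q : ℝ) :
    {y : Z2 → ℝ | ¬ ∃ v, y v < q ∧ ∀ u : Z2, dist u x ≤ j → dist u v ≤ ((j + R : ℕ) : ℝ) ∧
      ∀ w, y w < q → w ≠ v → dist u v + 4 * T₀ ≤ dist u w} ⊆
    {y | ∀ v ∈ bal x R, ¬ y v < q} ∪
      ⋃ p ∈ prs x R (2 * j + 4 * T₀), {y | sec x p ≠ p.1 ∧ y p.1 < q ∧ y (sec x p) < q} := by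
  intro y hy
  by_cases hn : ∀ v ∈ bal x R, ¬ y v < q
  · exact Or.inl hn
  right
  push Not at hn
  obtain ⟨v₀, hv₀, hyv₀⟩ := hn
  -- nearest seed
  obtain ⟨v, hvmem, hmin⟩ := Finset.exists_min_image ((bal x R).filter fun v => y v < q)
    (fun v => nn x v) ⟨v₀, Finset.mem_filter.2 ⟨hv₀, hyv₀⟩⟩
  rw [Finset.mem_filter, mem_bal] at hvmem
  obtain ⟨hvR, hyv⟩ := hvmem
  simp only [Set.mem_ofPred_eq, not_exists, not_and] at hy
  have h1 := hy v hyv
  push Not at h1
  obtain ⟨u, hu, hu2⟩ := h1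
  have hxv : dist v x = nn x v := dist_eq_nn x v
  have hvR' : (nn x v : ℝ) ≤ R := by exact_mod_cast hvR
  have huv : dist u v ≤ ((j + R : ℕ) : ℝ) := by
    have := dist_triangle u x v
    rw [dist_comm x v] at this
    push_cast
    linarith
  obtain ⟨w, hyw, hwv, hlt⟩ := hu2 huv
  have hxw : dist w x = nn x w := dist_eq_nn x w
  have hlow : nn x v ≤ nn x w := by
    by_cases hw : nn x w ≤ R
    · exact hmin w (Finset.mem_filter.2 ⟨mem_bal.2 hw, hyw⟩)
    · omega
  have hup : nn x w < nn x v + (2 * j + 4 * T₀) := by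
    have t1 := dist_triangle w u x
    have t2 := dist_triangle u x v
    rw [dist_comm w u] at t1
    rw [dist_comm x v] at t2
    have : (nn x w : ℝ) < ((nn x v + (2 * j + 4 * T₀) : ℕ) : ℝ) := by
      push_cast
      linarith
    exact_mod_cast this
  obtain ⟨p, hp, hp1, hp2⟩ := exists_sec hvR hlow hup
  simp only [Set.mem_iUnion]
  refine ⟨p, hp, ?_⟩
  simp only [Set.mem_ofPred_eq]
  rw [hp2, hp1]
  exact ⟨hwv, hyv, hyw⟩

theorem prob_bad (x : Z2) (j T₀ R : ℕ) {q : ℝ} (h0 : 0 ≤ q) (h1 : q ≤ 1) :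
    PP {y : Z2 → ℝ | ¬ ∃ v, y v < q ∧ ∀ u : Z2, dist u x ≤ j → dist u v ≤ ((j + R : ℕ) : ℝ) ∧
      ∀ w, y w < q → w ≠ v → dist u v + 4 * T₀ ≤ dist u w} ≤
    ENNReal.ofReal ((1 - q) ^ ((2 * R + 1) ^ 2) + (((2 * R + 1) ^ 2 *
      (4 * (2 * j + 4 * T₀) * (2 * (R + (2 * j + 4 * T₀)) + 1)) : ℕ) : ℝ) * q ^ 2) := by
  refine (measure_mono (bad_subset x j T₀ R q)).trans ?_
  refine (measure_union_le _ _).trans ?_
  rw [ENNReal.ofReal_add (pow_nonneg (by linarith) _) (by positivity)]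
  refine add_le_add ?_ ?_
  · rw [prob_none h0, card_bal, ENNReal.ofReal_pow (by linarith)]
  · refine (measure_biUnion_finset_le _ _).trans ?_
    have hb : ∀ p ∈ prs x R (2 * j + 4 * T₀),
        PP {y | sec x p ≠ p.1 ∧ y p.1 < q ∧ y (sec x p) < q} ≤ ENNReal.ofReal q ^ 2 := by
      intro p _
      by_cases hp : sec x p = p.1
      · have : {y : Z2 → ℝ | sec x p ≠ p.1 ∧ y p.1 < q ∧ y (sec x p) < q} = ∅ := by
          ext y
          simp [hp]
        rw [this, measure_empty]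
        exact zero_le
      · rw [← prob_two h1 hp]
        exact measure_mono (fun y hy => hy.2)
    refine (Finset.sum_le_sum hb).trans ?_
    rw [Finset.sum_const, card_prs, nsmul_eq_mul, ENNReal.ofReal_mul (by positivity),
      ENNReal.ofReal_natCast, ENNReal.ofReal_pow h0]

theorem choose : ChooseStatement := by
  intro j T₀
  set a : ℕ := j + 2 with ha
  set m : ℕ := 2 * j + 4 * T₀ with hm
  set s : ℕ := 36 * a ^ 2 * m * (2 * a + 2 * m + 1) * 2 ^ (j + 1) + 2 with hs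
  have hs2 : 2 ≤ s := by omega
  have hsR : (2 : ℝ) ≤ s := by exact_mod_cast hs2
  have hs0 : (0 : ℝ) < s := by linarith
  have hq0 : (0 : ℝ) < 1 / (s : ℝ) ^ 2 := by positivity
  have hq1 : 1 / (s : ℝ) ^ 2 < 1 := by
    rw [div_lt_one (by positivity)]
    nlinarith
  refine ⟨j + a * s, 1 / (s : ℝ) ^ 2, hq0, hq1, ?_⟩
  intro x
  refine (prob_bad x j T₀ (a * s) hq0.le hq1.le).trans ?_
  apply ENNReal.ofReal_le_ofReal
  -- first term
  have t1 : (1 - 1 / (s : ℝ) ^ 2) ^ ((2 * (a * s) + 1) ^ 2) ≤ (1 / 2) ^ (j + 1) := by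
    have e1 : 1 - 1 / (s : ℝ) ^ 2 ≤ Real.exp (-(1 / (s : ℝ) ^ 2)) := by
      have := Real.add_one_le_exp (-(1 / (s : ℝ) ^ 2))
      linarith
    have e2 : (1 - 1 / (s : ℝ) ^ 2) ^ ((2 * (a * s) + 1) ^ 2) ≤
        Real.exp (-(1 / (s : ℝ) ^ 2)) ^ ((2 * (a * s) + 1) ^ 2) :=
      pow_le_pow_left₀ (by linarith) e1 _
    refine e2.trans ?_
    have e3 : Real.exp (-(1 / (s : ℝ) ^ 2)) ^ ((2 * (a * s) + 1) ^ 2) ≤
        Real.exp (-(((j + 1 : ℕ) : ℝ))) := by
      rw [← Real.exp_nat_mul]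
      apply Real.exp_le_exp.2
      have : ((j + 1 : ℕ) : ℝ) ≤ (((2 * (a * s) + 1) ^ 2 : ℕ) : ℝ) * (1 / (s : ℝ) ^ 2) := by
        rw [mul_one_div, le_div_iff₀ (by positivity)]
        have hh : (j + 1) * s ^ 2 ≤ (2 * (a * s) + 1) ^ 2 := by
          have : j + 1 ≤ a := by omega
          nlinarith [Nat.zero_le (a * s), Nat.mul_le_mul this (le_refl (s ^ 2)),
            Nat.mul_le_mul (show 1 ≤ a by omega) (le_refl (a * s ^ 2))]
        exact_mod_cast hh
      linarith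
    refine e3.trans ?_
    have e4 : Real.exp (-(((j + 1 : ℕ) : ℝ))) = Real.exp (-1) ^ (j + 1) := by
      rw [← Real.exp_nat_mul]
      ring_nf
    rw [e4]
    apply pow_le_pow_left₀ (Real.exp_pos _).le
    rw [Real.exp_neg, one_div]
    apply inv_anti₀ (by norm_num)
    have := Real.add_one_le_exp (1 : ℝ)
    linarith
  -- second term
  have t2 : (((2 * (a * s) + 1) ^ 2 * (4 * m * (2 * (a * s + m) + 1)) : ℕ) : ℝ) *
      (1 / (s : ℝ) ^ 2) ^ 2 ≤ (1 / 2) ^ (j + 1) := by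
    have hsn : 1 ≤ s := by omega
    have han : 1 ≤ a := by omega
    have f1 : 2 * (a * s) + 1 ≤ 3 * (a * s) := by nlinarith [Nat.mul_le_mul han hsn]
    have f2 : 2 * (a * s + m) + 1 ≤ (2 * a + 2 * m + 1) * s := by nlinarith
    have f3 : (2 * (a * s) + 1) ^ 2 * (4 * m * (2 * (a * s + m) + 1)) ≤
        (3 * (a * s)) ^ 2 * (4 * m * ((2 * a + 2 * m + 1) * s)) :=
      Nat.mul_le_mul (Nat.pow_le_pow_left f1 2) (Nat.mul_le_mul (le_refl _) f2)
    have f4 : (3 * (a * s)) ^ 2 * (4 * m * ((2 * a + 2 * m + 1) * s)) * 2 ^ (j + 1) ≤ s ^ 4 := by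
      have : (3 * (a * s)) ^ 2 * (4 * m * ((2 * a + 2 * m + 1) * s)) * 2 ^ (j + 1) =
          (36 * a ^ 2 * m * (2 * a + 2 * m + 1) * 2 ^ (j + 1)) * s ^ 3 := by ring
      rw [this]
      calc (36 * a ^ 2 * m * (2 * a + 2 * m + 1) * 2 ^ (j + 1)) * s ^ 3 ≤ s * s ^ 3 :=
            Nat.mul_le_mul (by omega) (le_refl _)
        _ = s ^ 4 := by ring
    have f5 : (((2 * (a * s) + 1) ^ 2 * (4 * m * (2 * (a * s + m) + 1)) : ℕ) : ℝ) *
        2 ^ (j + 1) ≤ (s : ℝ) ^ 4 := by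
      exact_mod_cast (Nat.mul_le_mul f3 (le_refl (2 ^ (j + 1)))).trans f4
    have hs4 : (0 : ℝ) < (s : ℝ) ^ 4 := by positivity
    rw [div_pow, one_pow, ← pow_mul, mul_one_div, div_pow, one_pow,
      div_le_div_iff₀ hs4 (by positivity)]
    linarith
  have t3 : ((1 : ℝ) / 2) ^ j = (1 / 2) ^ (j + 1) + (1 / 2) ^ (j + 1) := by ring
  rw [t3]
  exact add_le_add t1 t2

end Pool.Agent.Helper93_SFT
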